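import Mathlib
import Pool.Agent.H159R3.Torus.Results

/-!
If all holomorphic maps from the elliptic curve of Gaussian integers to a projective variety are
constant, then so are all entire curves of exponential type in it.
-/

namespace Pool.Agent.Results.MP_b9fedf_ag.ExponentialCurves

open MvPolynomial Pool.Agent.H159R3.Torus Pool.Agent.H159R3.Exp

theorem result :
    (DiscreteTopology gauss ∧ Submodule.span ℝ (gauss : Set (Fin 1 → ℂ)) = ⊤) ∧
    ∀ (n : ℕ) (S : Set (MvPolynomial (Fin (n + 1)) ℂ)),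
      (∀ p ∈ S, ∃ d : ℕ, p.IsHomogeneous d) →
      TorusMapsConstant S gauss →
      ∀ f : ℂ → (Fin (n + 1) → ℂ),
        Differentiable ℂ f →
        (∀ z, f z ≠ 0) →
        (∀ z, ∀ p ∈ S, MvPolynomial.eval (f z) p = 0) →
        ExpTypeP f →
        ∀ z w, ∃ c : ℂ, f w = c • f z :=
  ⟨⟨gauss_discrete, gauss_span⟩, fun _ S hS hT f hf hf0 hfS hft z w =>
    exponential S hS hT f hf hf0 hfS hft z w⟩

end Pool.Agent.Results.MP_b9fedf_ag.ExponentialCurves
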